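import Pool.Agent.MWGN.StmtsB

/-!
# MWGN, row TLW: the two letter words of the row TLR
-/

namespace Pool.Agent.MWGN.H74

open Pool.Agent.Helper14_MV Pool.Agent.Helper2_MV
open Pool.Agent.MWK (pre Gw)

theorem abs1 {β : FIC} (gm : RR β [0, 1, 0] [0, 1, 0, 0]) (c : ℕ) (P Q : List ℕ) (hc : c ∈ P) :
    RR β (P ++ c :: c :: Q) (P ++ c :: Q) := by
  obtain ⟨P1, P2, rfl⟩ := List.append_of_mem hc
  have h := RR.sub (fun i => if i = 0 then [c] else P2) gm
  simp only [List.flatMap_cons, List.flatMap_nil] at h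
  have h2 := RR.append (RR.refl (β := β) P1) (RR.append h (RR.refl (β := β) Q))
  have h3 := h2.symm
  simpa using h3

theorem abs {β : FIC} (gm : RR β [0, 1, 0] [0, 1, 0, 0]) (c : ℕ) (P Q : List ℕ) (hc : c ∈ P)
    (j : ℕ) (hj : 1 ≤ j) : RR β (P ++ (List.replicate j c ++ Q)) (P ++ c :: Q) := by
  induction j, hj using Nat.le_induction with
  | base => exact RR.refl _
  | succ j hj ih =>
    refine FIC.trans _ ?_ ih
    obtain ⟨i, rfl⟩ : ∃ i, j = i + 1 := ⟨j - 1, by omega⟩
    exact abs1 gm c P (List.replicate i c ++ Q) hc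

/-- `0^a Q ~ 0 0 Q` for `a ≥ 2` -/
theorem two {β : FIC} (gm : RR β [0, 1, 0] [0, 1, 0, 0]) (Q : List ℕ) (a : ℕ) (ha : 2 ≤ a) :
    RR β (List.replicate a 0 ++ Q) (0 :: 0 :: Q) := by
  obtain ⟨i, rfl⟩ : ∃ i, a = i + 1 := ⟨a - 1, by omega⟩
  have h := abs gm 0 [0] Q (by simp) i (by omega)
  simpa [List.replicate_succ] using h

theorem a0 {β : FIC} (gm : RR β [0, 1, 0] [0, 1, 0, 0]) {a k a' b' k' : ℕ} (ha : 2 ≤ a)
    (ha' : 2 ≤ a') (hb' : 1 ≤ b') (hk : 1 ≤ k) (hk' : 1 ≤ k')
    (h : RR β (List.replicate a 0 ++ 1 :: 2 :: List.replicate k 1)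
      (List.replicate a' 0 ++ 1 :: (List.replicate b' 0 ++ 2 :: List.replicate k' 1))) :
    A0 β := by
  have l1 := two gm (1 :: 2 :: List.replicate k 1) a ha
  have l2 : RR β (0 :: 0 :: 1 :: 2 :: List.replicate k 1) [0, 0, 1, 2, 1] := by
    have := abs gm 1 [0, 0, 1, 2] [] (by simp) k hk
    simpa using this
  have r1 := two gm (1 :: (List.replicate b' 0 ++ 2 :: List.replicate k' 1)) a' ha'
  have r2 : RR β (0 :: 0 :: 1 :: (List.replicate b' 0 ++ 2 :: List.replicate k' 1))
      (0 :: 0 :: 1 :: 0 :: 2 :: List.replicate k' 1) := by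
    have := abs gm 0 [0, 0, 1] (2 :: List.replicate k' 1) (by simp) b' hb'
    simpa using this
  have r3 : RR β (0 :: 0 :: 1 :: 0 :: 2 :: List.replicate k' 1) [0, 0, 1, 0, 2, 1] := by
    have := abs gm 1 [0, 0, 1, 0, 2] [] (by simp) k' hk'
    simpa using this
  exact β.trans (β.trans (RR.symm l2) (RR.symm l1)) (β.trans h (β.trans r1 (β.trans r2 r3)))

theorem core {β : FIC} (gm : RR β [0, 1, 0] [0, 1, 0, 0]) {b k a' b' k' : ℕ} (hb : 1 ≤ b)
    (ha' : 1 ≤ a') (hk : 1 ≤ k) (hk' : 1 ≤ k') (hA : b' = 0 → A0 β)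
    (h : RR β (0 :: 3 :: 1 :: (List.replicate b 0 ++ 2 :: List.replicate k 1))
      (0 :: 3 :: (List.replicate a' 0 ++ 1 :: (List.replicate b' 0 ++ 2 :: List.replicate k' 1)))) :
    P0 β := by
  have l1 : RR β (0 :: 3 :: 1 :: (List.replicate b 0 ++ 2 :: List.replicate k 1))
      (0 :: 3 :: 1 :: 0 :: 2 :: List.replicate k 1) := by
    have := abs gm 0 [0, 3, 1] (2 :: List.replicate k 1) (by simp) b hb
    simpa using this
  have l2 : RR β (0 :: 3 :: 1 :: 0 :: 2 :: List.replicate k 1) [0, 3, 1, 0, 2, 1] := by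
    have := abs gm 1 [0, 3, 1, 0, 2] [] (by simp) k hk
    simpa using this
  have r1 : RR β
      (0 :: 3 :: (List.replicate a' 0 ++ 1 :: (List.replicate b' 0 ++ 2 :: List.replicate k' 1)))
      (0 :: 3 :: 0 :: 1 :: (List.replicate b' 0 ++ 2 :: List.replicate k' 1)) := by
    have := abs gm 0 [0, 3] (1 :: (List.replicate b' 0 ++ 2 :: List.replicate k' 1)) (by simp)
      a' ha'
    simpa using this
  have r2 : RR β (0 :: 3 :: 0 :: 1 :: (List.replicate b' 0 ++ 2 :: List.replicate k' 1))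
      [0, 3, 0, 1, 0, 2, 1] := by
    rcases Nat.eq_zero_or_pos b' with h0 | h0
    · subst h0
      have s1 : RR β (0 :: 3 :: 0 :: 1 :: 2 :: List.replicate k' 1) [0, 3, 0, 1, 2, 1] := by
        have := abs gm 1 [0, 3, 0, 1, 2] [] (by simp) k' hk'
        simpa using this
      have s2 : RR β [0, 3, 0, 0, 1, 2, 1] [0, 3, 0, 1, 2, 1] := by
        have := abs1 gm 0 [0, 3] [1, 2, 1] (by simp)
        simpa using this
      have s3 : RR β [0, 3, 0, 0, 1, 2, 1] [0, 3, 0, 0, 1, 0, 2, 1] := by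
        have := RR.append (RR.refl (β := β) [0, 3]) (hA rfl)
        simpa using this
      have s4 : RR β [0, 3, 0, 0, 1, 0, 2, 1] [0, 3, 0, 1, 0, 2, 1] := by
        have := abs1 gm 0 [0, 3] [1, 0, 2, 1] (by simp)
        simpa using this
      exact β.trans s1 (β.trans (RR.symm s2) (β.trans s3 s4))
    · have s1 : RR β (0 :: 3 :: 0 :: 1 :: (List.replicate b' 0 ++ 2 :: List.replicate k' 1))
          (0 :: 3 :: 0 :: 1 :: 0 :: 2 :: List.replicate k' 1) := by
        have := abs gm 0 [0, 3, 0, 1] (2 :: List.replicate k' 1) (by simp) b' h0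
        simpa using this
      have s2 : RR β (0 :: 3 :: 0 :: 1 :: 0 :: 2 :: List.replicate k' 1)
          [0, 3, 0, 1, 0, 2, 1] := by
        have := abs gm 1 [0, 3, 0, 1, 0, 2] [] (by simp) k' hk'
        simpa using this
      exact β.trans s1 s2
  have m : RR β [0, 3, 1, 0, 2, 1] [0, 3, 0, 1, 0, 2, 1] :=
    β.trans (β.trans (RR.symm l2) (RR.symm l1)) (β.trans h (β.trans r1 r2))
  exact RR.sub (fun i => if i = 2 then [3] else if i = 3 then [2] else [i]) m

theorem tlw : TlwStmt := by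
  intro β hβ a b k a' b' k' hk hk'
  have gm := hβ.gm
  refine ⟨?_, ?_, ?_⟩
  · intro ha hb' h
    have h2 := RR.append (RR.refl (β := β) [0, 0]) h
    refine a0 gm (a := a + 2) (a' := a' + 2) (by omega) (by omega) hb' hk hk' ?_
    simpa [List.replicate_succ] using h2
  · intro hb ha' _ h
    refine core gm (b := b) (b' := b') (by omega) ha' hk hk' ?_ ?_
    · intro h0
      subst h0
      have h2 := (RR.append (RR.refl (β := β) [0, 0]) h).symm
      refine a0 gm (a := a' + 2) (a' := 2) (b' := b) (by omega) (by omega) (by omega) hk' hk ?_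
      simpa [List.replicate_succ] using h2
    · have h2 := RR.append (RR.refl (β := β) [0, 3]) h
      simpa using h2
  · intro hb ha' h
    refine core gm (b := b) (by omega) ha' hk hk' ?_ h
    intro h0
    subst h0
    have h1 := RR.sub (fun i => if i = 3 then [] else [i]) h
    have hr : ∀ (n c : ℕ), c ≠ 3 → (List.replicate n c).flatMap
        (fun i => if i = 3 then [] else [i]) = List.replicate n c := by
      intro n c hc
      induction n with
      | zero => rfl
      | succ n ih => simp [List.replicate_succ, ih, hc]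
    simp only [List.flatMap_cons, List.flatMap_append, hr _ 0 (by norm_num),
      hr _ 1 (by norm_num)] at h1
    have h2 := (RR.append (RR.refl (β := β) [0, 0]) h1).symm
    refine a0 gm (a := a' + 3) (a' := 3) (b' := b) (by omega) (by omega) hb hk' hk ?_
    simpa [List.replicate_succ] using h2

end Pool.Agent.MWGN.H74
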